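import Mathlib

/-!
MP_b67aea_co, Q1 for all `k ≥ 4`: for all large `n` the map `pre_k` is not injective on the
partitions of `n` with more than `k` parts.  Paper proof: helper133.
-/

set_option autoImplicit false

namespace Pool.Agent.Results.MP_b67aea_co.AtLeastFour

/-- The multiset of the products over the `k`-element subsets of the positions. -/
def pre (k : ℕ) (l : Multiset ℕ) : Multiset ℕ := (l.powersetCard k).map Multiset.prod

/-- the map `pre_k` on functions. -/
def preF {ι : Type} [Fintype ι] [DecidableEq ι] (k : ℕ) (f : ι → ℕ) : Multiset ℕ :=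
  ((Finset.univ : Finset ι).powersetCard k).val.map fun s => ∏ i ∈ s, f i

lemma pre_eq_preF {ι : Type} [Fintype ι] [DecidableEq ι] (k : ℕ) (f : ι → ℕ) :
    pre k ((Finset.univ : Finset ι).val.map f) = preF k f := by
  unfold pre preF
  rw [Multiset.powersetCard_map, Multiset.map_map, ← Finset.map_val_val_powersetCard,
    Multiset.map_map]
  rfl

/-- complement: if `f i * g i = C` and `∏ f = C ^ k` then the `k`-products agree. -/
lemma preF_eq {k : ℕ} {ι : Type} [Fintype ι] [DecidableEq ι] (hι : Fintype.card ι = 2 * k)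
    {f g : ι → ℕ} {C : ℕ} (hC : 0 < C) (hfg : ∀ i, f i * g i = C) (hf : ∏ i, f i = C ^ k) :
    preF k f = preF k g := by
  unfold preF
  have key : ∀ s ∈ (Finset.univ : Finset ι).powersetCard k, ∏ i ∈ s, f i = ∏ i ∈ sᶜ, g i := by
    intro s hs
    rw [Finset.mem_powersetCard] at hs
    have hc : sᶜ.card = k := by
      rw [Finset.card_compl, hs.2, hι]; omega
    have h1 : (∏ i ∈ sᶜ, f i) * ∏ i ∈ sᶜ, g i = C ^ k := by
      rw [← Finset.prod_mul_distrib, Finset.prod_congr rfl fun i _ => hfg i, Finset.prod_const, hc]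
    have h2 : (∏ i ∈ sᶜ, f i) * ∏ i ∈ s, f i = C ^ k := by
      rw [mul_comm, Finset.prod_mul_prod_compl, hf]
    have h3 : 0 < ∏ i ∈ sᶜ, f i := by
      refine Nat.pos_of_ne_zero fun h => ?_
      rw [h, zero_mul] at h1
      exact (pow_pos hC k).ne h1
    exact Nat.eq_of_mul_eq_mul_left h3 (h2.trans h1.symm)
  have e1 : ((Finset.univ : Finset ι).powersetCard k).val.map (fun s => ∏ i ∈ s, f i) =
      ((Finset.univ : Finset ι).powersetCard k).val.map (fun s => ∏ i ∈ sᶜ, g i) :=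
    Multiset.map_congr rfl fun s hs => key s hs
  rw [e1]
  have e2 : ((Finset.univ : Finset ι).powersetCard k).image (fun s => sᶜ) =
      (Finset.univ : Finset ι).powersetCard k := by
    ext s
    rw [Finset.mem_image]
    constructor
    · rintro ⟨t, ht, rfl⟩
      rw [Finset.mem_powersetCard] at ht ⊢
      refine ⟨Finset.subset_univ _, ?_⟩
      rw [Finset.card_compl, ht.2, hι]; omega
    · intro hs
      refine ⟨sᶜ, ?_, compl_compl s⟩
      rw [Finset.mem_powersetCard] at hs ⊢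
      refine ⟨Finset.subset_univ _, ?_⟩
      rw [Finset.card_compl, hs.2, hι]; omega
  conv_rhs => rw [← e2, Finset.image_val_of_injOn (fun a _ b _ h => compl_injective h),
    Multiset.map_map]
  rfl

/-- the parts `15, 28, 28, 48, d, 1, …, 1`. -/
def av (k d : ℕ) (i : Fin k) : ℕ :=
  if i.val = 0 then 15 else if i.val = 1 then 28 else if i.val = 2 then 28 else
    if i.val = 3 then 48 else if i.val = 4 then d else 1

/-- the parts `16, 21, 40, 42, d, 1, …, 1`. -/
def bv (k d : ℕ) (i : Fin k) : ℕ :=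
  if i.val = 0 then 16 else if i.val = 1 then 21 else if i.val = 2 then 40 else
    if i.val = 3 then 42 else if i.val = 4 then d else 1

/-- `1680 d / a`. -/
def ai (k d : ℕ) (i : Fin k) : ℕ :=
  if i.val = 0 then 112 * d else if i.val = 1 then 60 * d else if i.val = 2 then 60 * d else
    if i.val = 3 then 35 * d else if i.val = 4 then 1680 else 1680 * d

/-- `1680 d / b`. -/
def bi (k d : ℕ) (i : Fin k) : ℕ :=
  if i.val = 0 then 105 * d else if i.val = 1 then 80 * d else if i.val = 2 then 42 * d else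
    if i.val = 3 then 40 * d else if i.val = 4 then 1680 else 1680 * d

lemma av_mul (k d : ℕ) (i : Fin k) : av k d i * ai k d i = 1680 * d := by
  unfold av ai
  split_ifs <;> ring

lemma bv_mul (k d : ℕ) (i : Fin k) : bv k d i * bi k d i = 1680 * d := by
  unfold bv bi
  split_ifs <;> ring

/-- sums over `Fin (m + 4)`, splitting off the first four values. -/
lemma prod4 {m : ℕ} (f : Fin (m + 4) → ℕ) : ∏ i, f i =
    f 0 * (f 1 * (f 2 * (f 3 * ∏ i : Fin m, f i.succ.succ.succ.succ))) := by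
  rw [Fin.prod_univ_succ, Fin.prod_univ_succ, Fin.prod_univ_succ, Fin.prod_univ_succ]
  rfl

lemma sum4 {m : ℕ} (f : Fin (m + 4) → ℕ) : ∑ i, f i =
    f 0 + (f 1 + (f 2 + (f 3 + ∑ i : Fin m, f i.succ.succ.succ.succ))) := by
  rw [Fin.sum_univ_succ, Fin.sum_univ_succ, Fin.sum_univ_succ, Fin.sum_univ_succ]
  rfl

/-- the tail of the `a`/`b` sums. -/
def tl (m d : ℕ) (i : Fin m) : ℕ := if i.val = 0 then d else 1

/-- the tail of the `1680 d / a` sums. -/
def tu (m d : ℕ) (i : Fin m) : ℕ := if i.val = 0 then 1680 else 1680 * d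

lemma av_tail {m d : ℕ} (i : Fin m) : av (m + 4) d i.succ.succ.succ.succ = tl m d i := by
  simp [av, tl, Fin.val_succ]

lemma bv_tail {m d : ℕ} (i : Fin m) : bv (m + 4) d i.succ.succ.succ.succ = tl m d i := by
  simp [bv, tl, Fin.val_succ]

lemma ai_tail {m d : ℕ} (i : Fin m) : ai (m + 4) d i.succ.succ.succ.succ = tu m d i := by
  simp [ai, tu, Fin.val_succ]

lemma bi_tail {m d : ℕ} (i : Fin m) : bi (m + 4) d i.succ.succ.succ.succ = tu m d i := by
  simp [bi, tu, Fin.val_succ]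

lemma v0 (m : ℕ) : ((0 : Fin (m + 4)) : ℕ) = 0 := rfl
lemma v1 (m : ℕ) : ((1 : Fin (m + 4)) : ℕ) = 1 := rfl
lemma v2 (m : ℕ) : ((2 : Fin (m + 4)) : ℕ) = 2 := rfl
lemma v3 (m : ℕ) : ((3 : Fin (m + 4)) : ℕ) = 3 := rfl

lemma prod_av (m d : ℕ) : ∏ i, av (m + 4) d i = ∏ i, bv (m + 4) d i := by
  rw [prod4, prod4]
  simp only [av_tail, bv_tail]
  have h0 : av (m + 4) d 0 = 15 := rfl
  have h1 : av (m + 4) d 1 = 28 := rfl
  have h2 : av (m + 4) d 2 = 28 := rfl
  have h3 : av (m + 4) d 3 = 48 := rfl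
  have g0 : bv (m + 4) d 0 = 16 := rfl
  have g1 : bv (m + 4) d 1 = 21 := rfl
  have g2 : bv (m + 4) d 2 = 40 := rfl
  have g3 : bv (m + 4) d 3 = 42 := rfl
  rw [h0, h1, h2, h3, g0, g1, g2, g3]
  ring

lemma sum_pow_av (m d e : ℕ) : ∑ i, av (m + 4) d i ^ e =
    15 ^ e + (28 ^ e + (28 ^ e + (48 ^ e + ∑ i, tl m d i ^ e))) := by
  rw [sum4]
  simp only [av_tail]
  have h0 : av (m + 4) d 0 = 15 := rfl
  have h1 : av (m + 4) d 1 = 28 := rfl
  have h2 : av (m + 4) d 2 = 28 := rfl
  have h3 : av (m + 4) d 3 = 48 := rfl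
  rw [h0, h1, h2, h3]

lemma sum_pow_bv (m d e : ℕ) : ∑ i, bv (m + 4) d i ^ e =
    16 ^ e + (21 ^ e + (40 ^ e + (42 ^ e + ∑ i, tl m d i ^ e))) := by
  rw [sum4]
  simp only [bv_tail]
  have g0 : bv (m + 4) d 0 = 16 := rfl
  have g1 : bv (m + 4) d 1 = 21 := rfl
  have g2 : bv (m + 4) d 2 = 40 := rfl
  have g3 : bv (m + 4) d 3 = 42 := rfl
  rw [g0, g1, g2, g3]

lemma sum_pow_ai (m d e : ℕ) : ∑ i, ai (m + 4) d i ^ e =
    (112 * d) ^ e + ((60 * d) ^ e + ((60 * d) ^ e + ((35 * d) ^ e + ∑ i, tu m d i ^ e))) := by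
  rw [sum4]
  simp only [ai_tail]
  have h0 : ai (m + 4) d 0 = 112 * d := rfl
  have h1 : ai (m + 4) d 1 = 60 * d := rfl
  have h2 : ai (m + 4) d 2 = 60 * d := rfl
  have h3 : ai (m + 4) d 3 = 35 * d := rfl
  rw [h0, h1, h2, h3]

lemma sum_pow_bi (m d e : ℕ) : ∑ i, bi (m + 4) d i ^ e =
    (105 * d) ^ e + ((80 * d) ^ e + ((42 * d) ^ e + ((40 * d) ^ e + ∑ i, tu m d i ^ e))) := by
  rw [sum4]
  simp only [bi_tail]
  have h0 : bi (m + 4) d 0 = 105 * d := rfl
  have h1 : bi (m + 4) d 1 = 80 * d := rfl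
  have h2 : bi (m + 4) d 2 = 42 * d := rfl
  have h3 : bi (m + 4) d 3 = 40 * d := rfl
  rw [h0, h1, h2, h3]

lemma not_five {s u : ℕ} (hu : u ≠ 0) (h : s ^ 2 = 5 * u ^ 2) : False := by
  have : Fact (Nat.Prime 5) := ⟨by norm_num⟩
  have h1 := congrArg (padicValNat 5) h
  rw [padicValNat.pow, padicValNat.mul (by norm_num) (pow_ne_zero _ hu),
    padicValNat.pow, padicValNat.self (by norm_num)] at h1
  omega

/-- the first partition. -/
def fL (k d s t : ℕ) : Fin k ⊕ Fin k → ℕ := Sum.elim (fun i => s * av k d i) fun i => t * bi k d i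

/-- the second partition. -/
def fM (k d s t : ℕ) : Fin k ⊕ Fin k → ℕ := Sum.elim (fun i => t * ai k d i) fun i => s * bv k d i

lemma fL_mul (k d s t : ℕ) (i : Fin k ⊕ Fin k) :
    fL k d s t i * fM k d s t i = 1680 * d * s * t := by
  rcases i with i | i
  · have h := av_mul k d i
    simp only [fL, fM, Sum.elim_inl]
    calc s * av k d i * (t * ai k d i) = (av k d i * ai k d i) * s * t := by ring
      _ = _ := by rw [h]
  · have h := bv_mul k d i
    simp only [fL, fM, Sum.elim_inr]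
    calc t * bi k d i * (s * bv k d i) = (bv k d i * bi k d i) * s * t := by ring
      _ = _ := by rw [h]

lemma fL_prod (m d s t : ℕ) :
    ∏ i, fL (m + 4) d s t i = (1680 * d * s * t) ^ (m + 4) := by
  rw [Fintype.prod_sum_type]
  simp only [fL, Sum.elim_inl, Sum.elim_inr]
  rw [Finset.prod_mul_distrib, Finset.prod_mul_distrib, prod_av]
  have h : (∏ i, bv (m + 4) d i) * ∏ i, bi (m + 4) d i = (1680 * d) ^ (m + 4) := by
    rw [← Finset.prod_mul_distrib, Finset.prod_congr rfl fun i _ => bv_mul (m + 4) d i,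
      Finset.prod_const, Finset.card_univ, Fintype.card_fin]
  rw [Finset.prod_const, Finset.prod_const, Finset.card_univ, Fintype.card_fin]
  calc s ^ (m + 4) * (∏ i, bv (m + 4) d i) * (t ^ (m + 4) * ∏ i, bi (m + 4) d i)
      = ((∏ i, bv (m + 4) d i) * ∏ i, bi (m + 4) d i) * s ^ (m + 4) * t ^ (m + 4) := by ring
    _ = _ := by rw [h, ← mul_pow, ← mul_pow]

lemma fL_sum_pow (m d s t e : ℕ) : ∑ i, fL (m + 4) d s t i ^ e =
    s ^ e * (15 ^ e + (28 ^ e + (28 ^ e + (48 ^ e + ∑ i, tl m d i ^ e)))) +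
    t ^ e * ((105 * d) ^ e + ((80 * d) ^ e + ((42 * d) ^ e + ((40 * d) ^ e +
      ∑ i, tu m d i ^ e)))) := by
  rw [Fintype.sum_sum_type]
  simp only [fL, Sum.elim_inl, Sum.elim_inr, mul_pow]
  rw [← Finset.mul_sum, ← Finset.mul_sum, sum_pow_av, sum_pow_bi]
  simp only [mul_pow]

lemma fM_sum_pow (m d s t e : ℕ) : ∑ i, fM (m + 4) d s t i ^ e =
    t ^ e * ((112 * d) ^ e + ((60 * d) ^ e + ((60 * d) ^ e + ((35 * d) ^ e +
      ∑ i, tu m d i ^ e)))) +
    s ^ e * (16 ^ e + (21 ^ e + (40 ^ e + (42 ^ e + ∑ i, tl m d i ^ e)))) := by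
  rw [Fintype.sum_sum_type]
  simp only [fM, Sum.elim_inl, Sum.elim_inr, mul_pow]
  rw [← Finset.mul_sum, ← Finset.mul_sum, sum_pow_ai, sum_pow_bv]
  simp only [mul_pow]

lemma fL_pos {k d s t : ℕ} (hd : 0 < d) (hs : 0 < s) (ht : 0 < t) (i : Fin k ⊕ Fin k) :
    0 < fL k d s t i ∧ 0 < fM k d s t i := by
  have h := fL_mul k d s t i
  have h' : 0 < 1680 * d * s * t := by positivity
  rw [← h] at h'
  exact ⟨Nat.pos_of_mul_pos_right h', Nat.pos_of_mul_pos_left h'⟩

/-- the partition with the parts `f i`. -/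
def mk {ι : Type} [Fintype ι] (f : ι → ℕ) (hf : ∀ i, 0 < f i) {n : ℕ} (hn : ∑ i, f i = n) :
    n.Partition where
  parts := (Finset.univ : Finset ι).val.map f
  parts_pos := by
    intro x hx
    rw [Multiset.mem_map] at hx
    obtain ⟨i, _, rfl⟩ := hx
    exact hf i
  parts_sum := hn

lemma collision {m d s t n : ℕ} (hd : 0 < d) (hs : 0 < s) (ht : 0 < t)
    (hn : n = s * (119 + ∑ i, tl m d i) + t * (267 * d + ∑ i, tu m d i)) :
    ∃ lam mu : n.Partition, lam ≠ mu ∧ m + 4 < Multiset.card lam.parts ∧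
      m + 4 < Multiset.card mu.parts ∧ pre (m + 4) lam.parts = pre (m + 4) mu.parts := by
  have h1 : ∑ i, fL (m + 4) d s t i = n := by
    have := fL_sum_pow m d s t 1
    simp only [pow_one] at this
    rw [this, hn]
    ring
  have h2 : ∑ i, fM (m + 4) d s t i = n := by
    have := fM_sum_pow m d s t 1
    simp only [pow_one] at this
    rw [this, hn]
    ring
  refine ⟨mk (fL (m + 4) d s t) (fun i => (fL_pos hd hs ht i).1) h1,
    mk (fM (m + 4) d s t) (fun i => (fL_pos hd hs ht i).2) h2, ?_, ?_, ?_, ?_⟩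
  · intro h
    have h3 := congrArg (fun p : n.Partition => (p.parts.map (· ^ 2)).sum) h
    simp only [mk, Multiset.map_map, Function.comp_def] at h3
    change ∑ i, fL (m + 4) d s t i ^ 2 = ∑ i, fM (m + 4) d s t i ^ 2 at h3
    rw [fL_sum_pow, fM_sum_pow] at h3
    refine not_five (s := s) (u := d * t) (by positivity) ?_
    generalize (∑ i, tl m d i ^ 2) = X at h3
    generalize (∑ i, tu m d i ^ 2) = Y at h3
    zify at h3 ⊢
    linarith
  · simp [mk, Fintype.card_sum]
  · simp [mk, Fintype.card_sum]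
  · simp only [mk]
    rw [pre_eq_preF, pre_eq_preF]
    exact preF_eq (by simp [Fintype.card_sum]; omega) (by positivity)
      (fL_mul (m + 4) d s t) (fL_prod m d s t)

lemma frob {A B : ℕ} (hA : A ≠ 0) (hB : B ≠ 0) (h : A.Coprime B) {n : ℕ}
    (hn : A * B + A + B ≤ n) : ∃ s t, 0 < s ∧ 0 < t ∧ n = s * A + t * B := by
  obtain ⟨n', rfl⟩ : ∃ n', n = n' + A + B := ⟨n - A - B, by omega⟩
  obtain ⟨z, hz1, hz2⟩ := Nat.chineseRemainder h n' 0
  have hlt : (Nat.chineseRemainder h n' 0 : ℕ) < A * B := Nat.chineseRemainder_lt_mul h n' 0 hA hB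
  have hz := (Nat.chineseRemainder h n' 0).2
  generalize (Nat.chineseRemainder h n' 0 : ℕ) = w at hlt hz
  obtain ⟨h3, h4⟩ := hz
  have h5 : B ∣ w := (Nat.modEq_zero_iff_dvd).1 h4
  obtain ⟨t0, rfl⟩ := h5
  have h6 : A ∣ n' - B * t0 := (Nat.modEq_iff_dvd' (by omega)).1 h3
  obtain ⟨s0, hs0⟩ := h6
  refine ⟨s0 + 1, t0 + 1, Nat.succ_pos _, Nat.succ_pos _, ?_⟩
  have h7 : n' = A * s0 + B * t0 := by omega
  rw [h7]
  ring

/-- For every `k ≥ 4` there is `M` such that for all `n ≥ M` there are two distinct partitions of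
`n` with more than `k` parts and the same multiset of `k`-fold products. -/
theorem result (k : ℕ) (hk : 4 ≤ k) : ∃ M : ℕ, ∀ n ≥ M, ∃ lam mu : n.Partition,
    lam ≠ mu ∧ k < Multiset.card lam.parts ∧ k < Multiset.card mu.parts ∧
      pre k lam.parts = pre k mu.parts := by
  obtain ⟨m, rfl⟩ : ∃ m, k = m + 4 := ⟨k - 4, by omega⟩
  rcases m with _ | j
  · refine ⟨119 * 267 + 119 + 267, fun n hn => ?_⟩
    obtain ⟨s, t, hs, ht, h⟩ := frob (A := 119) (B := 267) (by norm_num) (by norm_num)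
      (by norm_num) hn
    refine collision (m := 0) (d := 1) one_pos hs ht ?_
    simp [h]
  · obtain ⟨d, hd⟩ : ∃ d, (119 + j) * (267 + 1680 * j) = d + 1798 + j := by
      refine ⟨(119 + j) * (267 + 1680 * j) - 1798 - j, ?_⟩
      have : 1798 + j ≤ (119 + j) * (267 + 1680 * j) := by nlinarith
      omega
    have hd0 : 0 < d := by nlinarith
    have e1 : ∑ i, tl (j + 1) d i = d + j := by
      rw [Fin.sum_univ_succ]
      simp [tl]
    have e2 : ∑ i, tu (j + 1) d i = 1680 + 1680 * d * j := by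
      rw [Fin.sum_univ_succ]
      simp [tu]
      ring
    have hcop : (119 + (d + j)).Coprime (267 * d + (1680 + 1680 * d * j)) := by
      rw [Nat.coprime_iff_isRelPrime]
      intro x hx hy
      rw [Nat.isUnit_iff]
      -- `B = (267 + 1680 j) d + 1680 = (267 + 1680 j) A - (A + 1679) + 1680`
      have h1 : (267 * d + (1680 + 1680 * d * j)) + (267 + 1680 * j) * (119 + j) =
          (267 + 1680 * j) * (119 + (d + j)) + 1680 := by ring
      have h2 : (267 + 1680 * j) * (119 + j) = (119 + (d + j)) + 1679 := by linarith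
      rw [h2] at h1
      have h3 : (267 * d + (1680 + 1680 * d * j)) + (119 + (d + j)) =
          (267 + 1680 * j) * (119 + (d + j)) + 1 := by omega
      have h4 : x ∣ (267 + 1680 * j) * (119 + (d + j)) + 1 := by
        rw [← h3]
        exact Dvd.dvd.add hy hx
      exact Nat.dvd_one.1 ((Nat.dvd_add_right (Dvd.dvd.mul_left hx _)).1 h4)
    refine ⟨(119 + (d + j)) * (267 * d + (1680 + 1680 * d * j)) + (119 + (d + j)) +
      (267 * d + (1680 + 1680 * d * j)), fun n hn => ?_⟩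
    obtain ⟨s, t, hs, ht, h⟩ := frob (by positivity) (by positivity) hcop hn
    refine collision (m := j + 1) (d := d) hd0 hs ht ?_
    rw [e1, e2, h]

end Pool.Agent.Results.MP_b67aea_co.AtLeastFour
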